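import Pool.Agent.H97.Ic2

namespace Pool.Agent.Results.MP_859019_mp.FourFive

open Real Pool.Agent.H97.Ic

/-- The conjectured bound `F_α` (for `α ≠ 1`), with `K_i = exp ((1 - α) H_i)`,
`δ = 2 ^ (1 - α)`. -/
noncomputable def F (α H₁ H₂ : ℝ) : ℝ :=
  log (((2 : ℝ) ^ (1 - α) - exp ((1 - α) * H₁)) * ((2 : ℝ) ^ (1 - α) - exp ((1 - α) * H₂)) /
    (1 - (2 : ℝ) ^ (1 - α)) + (2 : ℝ) ^ (1 - α)) / (1 - α)

lemma F_eq (α K K' d : ℝ) (hα : 1 - α ≠ 0) (hK : 0 < K) (hK' : 0 < K') (hd : (2 : ℝ) ^ (1 - α) = d) :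
    F α (log K / (1 - α)) (log K' / (1 - α)) = log ((d - K) * (d - K') / (1 - d) + d) / (1 - α) := by
  unfold F
  rw [hd, mul_div_cancel₀ _ hα, mul_div_cancel₀ _ hα, exp_log hK, exp_log hK']

lemma two_pow (n : ℕ) : (2 : ℝ) ^ (-(n : ℝ)) = (2 ^ n)⁻¹ := by
  rw [rpow_neg (by norm_num), rpow_natCast]

lemma cheb (a b c a' b' c' : ℝ) (p2 : c ≤ b) (p3 : b ≤ a) (q2 : c' ≤ b') (q3 : b' ≤ a') :
    0 ≤ (a - b) * (a' - b') ∧ 0 ≤ (a - c) * (a' - c') ∧ 0 ≤ (b - c) * (b' - c') :=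
  ⟨mul_nonneg (by linarith) (by linarith), mul_nonneg (by linarith) (by linarith),
    mul_nonneg (by linarith) (by linarith)⟩

theorem joint {B₁ B₂ : Type} [Fintype B₁] [DecidableEq B₁] [Fintype B₂] [DecidableEq B₂]
    (σ : Fin 2 → Matrix B₁ B₁ ℂ) (h : ∀ x, IsState (σ x))
    (σ' : Fin 2 → Matrix B₂ B₂ ℂ) (h' : ∀ x, IsState (σ' x)) :
    Hs 3 (tau σ σ') = F 3 (Hs 3 (cq σ)) (Hs 3 (cq σ')) ∧
    Hs 4 (tau σ σ') ≤ F 4 (Hs 4 (cq σ)) (Hs 4 (cq σ')) ∧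
    Hs 5 (tau σ σ') ≤ F 5 (Hs 5 (cq σ)) (Hs 5 (cq σ')) := by
  refine ⟨?_, ?_, ?_⟩
  · obtain ⟨s, t, s0, s1, t0, t1, a, b, c⟩ := val3 σ h σ' h'
    unfold Hs
    rw [a, b, c, F_eq 3 _ _ (1 / 4) (by norm_num) (by positivity) (by positivity)
      (by rw [show (1 : ℝ) - 3 = -((2 : ℕ) : ℝ) by norm_num, two_pow]; norm_num)]
    congr 2
    ring
  · obtain ⟨a, b, c, a', b', c', p1, p2, p3, q1, q2, q3, x, y, z⟩ := val4 σ h σ' h'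
    obtain ⟨r1, r2, r3⟩ := cheb a b c a' b' c' p2 p3 q2 q3
    have m : 0 ≤ (4 * a + 2 * b + c) * (4 * a' + 2 * b' + c') :=
      mul_nonneg (by linarith) (by linarith)
    unfold Hs
    rw [x, y, z, F_eq 4 _ _ (1 / 8) (by norm_num) (by linarith) (by linarith)
      (by rw [show (1 : ℝ) - 4 = -((3 : ℕ) : ℝ) by norm_num, two_pow]; norm_num)]
    rw [div_eq_mul_inv _ (1 - 1 / 8 : ℝ), show (1 - 1 / 8 : ℝ)⁻¹ = 8 / 7 by norm_num]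
    refine div_le_div_of_nonpos_of_le (by norm_num) (log_le_log ?_ ?_)
    · linarith
    · linarith
  · obtain ⟨a, b, c, a', b', c', p1, p2, p3, q1, q2, q3, x, y, z⟩ := val5 σ h σ' h'
    obtain ⟨r1, r2, r3⟩ := cheb a b c a' b' c' p2 p3 q2 q3
    have m : 0 ≤ (a + b + c) * (a' + b' + c') := mul_nonneg (by linarith) (by linarith)
    unfold Hs
    rw [x, y, z, F_eq 5 _ _ (1 / 16) (by norm_num) (by linarith) (by linarith)
      (by rw [show (1 : ℝ) - 5 = -((4 : ℕ) : ℝ) by norm_num, two_pow]; norm_num)]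
    rw [div_eq_mul_inv _ (1 - 1 / 16 : ℝ), show (1 - 1 / 16 : ℝ)⁻¹ = 16 / 15 by norm_num]
    refine div_le_div_of_nonpos_of_le (by norm_num) (log_le_log ?_ ?_)
    · linarith
    · linarith

theorem result {B₁ B₂ : Type} [Fintype B₁] [DecidableEq B₁] [Fintype B₂] [DecidableEq B₂]
    (σ : Fin 2 → Matrix B₁ B₁ ℂ) (h : ∀ x, IsState (σ x))
    (σ' : Fin 2 → Matrix B₂ B₂ ℂ) (h' : ∀ x, IsState (σ' x)) (a : ℝ) (ha : a = 4 ∨ a = 5) :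
    Hs a (tau σ σ') ≤ F a (Hs a (cq σ)) (Hs a (cq σ')) :=
  by
  rcases ha with rfl | rfl
  · exact (joint σ h σ' h').2.1
  · exact (joint σ h σ' h').2.2

end Pool.Agent.Results.MP_859019_mp.FourFive
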